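import Mathlib

/-! Harmonic functions: composition, Poisson integrals, uniform limits, Riesz approximation. -/

open Complex Metric Set Filter Topology InnerProductSpace

namespace Pool.Agent.Helper56.Harm

theorem harmonicAt_comp {u : ℂ → ℝ} {h : ℂ → ℂ} {z : ℂ} (hu : HarmonicAt u (h z))
    (hh : AnalyticAt ℂ h z) : HarmonicAt (fun x => u (h x)) z := by
  obtain ⟨ε, hε, hsub⟩ := Metric.isOpen_iff.mp (isOpen_setOfPred_harmonicAt u) (h z) hu
  obtain ⟨F, hF, hFu⟩ := HarmonicOnNhd.exists_analyticOnNhd_ball_re_eq (f := u) (z := h z) (R := ε)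
    (fun y hy => hsub hy)
  have h1 : HarmonicAt (fun x => (F (h x)).re) z :=
    ((hF (h z) (mem_ball_self hε)).comp hh).harmonicAt_re
  refine (harmonicAt_congr_nhds ?_).mp h1
  have h2 : ∀ᶠ x in 𝓝 z, h x ∈ ball (h z) ε := hh.continuousAt.eventually (ball_mem_nhds _ hε)
  filter_upwards [h2] with x hx
  exact hFu hx

/-- The Poisson integral. -/
noncomputable def PI (u : ℂ → ℝ) (c : ℂ) (r : ℝ) (w : ℂ) : ℝ :=
  Real.circleAverage ((re ∘ herglotzRieszKernel c w) • u) c r

lemma PI_zero_harmonic {u : ℂ → ℝ} {r : ℝ} (hu : CircleIntegrable u 0 r) :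
    HarmonicOnNhd (PI u 0 r) (ball 0 r) := by
  have h0 : CircleIntegrable (fun z => (u z : ℂ)) 0 r := by
    simp only [CircleIntegrable, intervalIntegrable_iff] at hu ⊢
    exact Complex.ofRealCLM.integrable_comp hu
  have h1 := analyticOnNhd_circleAverage_herglotzRieszKernel_smul h0
  intro w hw
  have h2 := (h1 w hw).harmonicAt_re
  refine (harmonicAt_congr_nhds ?_).mp h2
  filter_upwards [isOpen_ball.mem_nhds hw] with x hx
  exact re_circleAverage_herglotzRieszKernel_smul hu hx

lemma PI_translate (u : ℂ → ℝ) (c : ℂ) (r : ℝ) (w : ℂ) : PI u c r w = PI (fun z => u (z + c)) 0 r (w - c) := by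
  unfold PI
  rw [← Real.circleAverage_map_add_const]
  congr 1
  funext z
  simp only [Pi.smul_apply', Function.comp_apply, herglotzRieszKernel_add_const]

lemma PI_harmonic {u : ℂ → ℝ} {c : ℂ} {r : ℝ} (hu : ContinuousOn u (sphere c r)) (hr : 0 < r) :
    HarmonicOnNhd (PI u c r) (ball c r) := by
  have h0 : ContinuousOn (fun z => u (z + c)) (sphere 0 r) := by
    apply hu.comp (by fun_prop)
    intro z hz
    rw [mem_sphere, dist_zero_right] at hz
    rw [mem_sphere, dist_eq_norm, add_sub_cancel_right]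
    exact hz
  have h1 := PI_zero_harmonic (h0.circleIntegrable hr.le)
  have h2 : PI u c r = fun w => PI (fun z => u (z + c)) 0 r (w - c) := funext (PI_translate u c r)
  rw [h2]
  intro w hw
  apply harmonicAt_comp (u := PI (fun z => u (z + c)) 0 r) (h := fun w => w - c)
  · apply h1
    rw [mem_ball, dist_eq_norm] at hw
    rw [mem_ball, dist_zero_right]
    exact hw
  · fun_prop

lemma kernel_nonneg {c w z : ℂ} {r : ℝ} (hz : z ∈ sphere c r) (hw : w ∈ ball c r) :
    0 ≤ (herglotzRieszKernel c w z).re := by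
  have h1 := le_re_herglotzRieszKernel hz hw
  rw [mem_ball, dist_eq_norm] at hw
  have h2 : 0 ≤ (r - ‖w - c‖) / (r + ‖w - c‖) := by
    have := norm_nonneg (w - c)
    apply div_nonneg <;> linarith
  rw [herglotzRieszKernel_def]
  exact h2.trans h1

lemma kernel_cont {c w : ℂ} {r : ℝ} (hr : 0 < r) (hw : w ∈ ball c r) :
    ContinuousOn (re ∘ herglotzRieszKernel c w) (sphere c r) := by
  have h1 : ContinuousOn (herglotzRieszKernel c w) (sphere c |r|) := continuousOn_herglotzRieszKernel_sphere hw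
  rw [abs_of_pos hr] at h1
  exact Complex.continuous_re.comp_continuousOn h1

lemma PI_const {c w : ℂ} {r : ℝ} (hw : w ∈ ball c r) (a : ℝ) : PI (fun _ => a) c r w = a := by
  unfold PI
  exact HarmonicOnNhd.circleAverage_re_herglotzRieszKernel_smul (harmonicOnNhd_const a) hw

lemma PI_abs_le {u : ℂ → ℝ} {c w : ℂ} {r ε : ℝ} (hw : w ∈ ball c r) (hu : ContinuousOn u (sphere c r))
    (h : ∀ z ∈ sphere c r, |u z| ≤ ε) : |PI u c r w| ≤ ε := by
  have hr : 0 < r := pos_of_mem_ball hw
  have hk := kernel_cont hr hw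
  have hi : CircleIntegrable ((re ∘ herglotzRieszKernel c w) • u) c r := (hk.smul hu).circleIntegrable hr.le
  have hi2 : CircleIntegrable ((re ∘ herglotzRieszKernel c w) • (fun _ => ε)) c r :=
    (hk.smul continuousOn_const).circleIntegrable hr.le
  have hi3 : CircleIntegrable ((re ∘ herglotzRieszKernel c w) • (fun _ => -ε)) c r :=
    (hk.smul continuousOn_const).circleIntegrable hr.le
  rw [abs_le]
  constructor
  · rw [← PI_const hw (-ε)]
    apply Real.circleAverage_mono hi3 hi
    intro z hz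
    rw [abs_of_pos hr] at hz
    simp only [Pi.smul_apply', Function.comp_apply, smul_eq_mul]
    exact mul_le_mul_of_nonneg_left (abs_le.mp (h z hz)).1 (kernel_nonneg hz hw)
  · rw [← PI_const hw ε]
    apply Real.circleAverage_mono hi hi2
    intro z hz
    rw [abs_of_pos hr] at hz
    simp only [Pi.smul_apply', Function.comp_apply, smul_eq_mul]
    exact mul_le_mul_of_nonneg_left (abs_le.mp (h z hz)).2 (kernel_nonneg hz hw)

lemma PI_sub {u v : ℂ → ℝ} {c w : ℂ} {r : ℝ} (hw : w ∈ ball c r) (hu : ContinuousOn u (sphere c r))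
    (hv : ContinuousOn v (sphere c r)) : PI (u - v) c r w = PI u c r w - PI v c r w := by
  have hr : 0 < r := pos_of_mem_ball hw
  have hk := kernel_cont hr hw
  unfold PI
  rw [smul_sub]
  exact Real.circleAverage_sub ((hk.smul hu).circleIntegrable hr.le) ((hk.smul hv).circleIntegrable hr.le)

/-- continuity of uniform limits -/
lemma continuousOn_of_approx {u : ℂ → ℝ} {S : Set ℂ}
    (h : ∀ ε > 0, ∃ v : ℂ → ℝ, ContinuousOn v S ∧ ∀ z ∈ S, |u z - v z| ≤ ε) : ContinuousOn u S := by
  intro x hx
  rw [Metric.continuousWithinAt_iff]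
  intro ε hε
  obtain ⟨v, hv, huv⟩ := h (ε / 4) (by positivity)
  obtain ⟨δ, hδ, hd⟩ := Metric.continuousWithinAt_iff.mp (hv x hx) (ε / 4) (by positivity)
  refine ⟨δ, hδ, fun {y} hy hyd => ?_⟩
  have h1 := huv x hx
  have h2 := huv y hy
  have h3 := hd hy hyd
  rw [Real.dist_eq] at h3 ⊢
  have e : u y - u x = (u y - v y) + (v y - v x) - (u x - v x) := by ring
  rw [e]
  have := abs_sub ((u y - v y) + (v y - v x)) (u x - v x)
  have := abs_add_le (u y - v y) (v y - v x)
  linarith

theorem harmonic_of_unif {u : ℂ → ℝ} {c : ℂ} {R : ℝ}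
    (h : ∀ ε > 0, ∃ v : ℂ → ℝ, HarmonicOnNhd v (ball c R) ∧ ∀ z ∈ ball c R, |u z - v z| ≤ ε) :
    HarmonicOnNhd u (ball c R) := by
  have hcont : ContinuousOn u (ball c R) := continuousOn_of_approx (fun ε hε => by
    obtain ⟨v, hv, huv⟩ := h ε hε
    exact ⟨v, hv.continuousOn, huv⟩)
  intro x hx
  obtain ⟨r, hr, hsub⟩ := Metric.nhds_basis_closedBall.mem_iff.mp (isOpen_ball.mem_nhds hx)
  have hsu : sphere x r ⊆ ball c R := sphere_subset_closedBall.trans hsub
  have huc : ContinuousOn u (sphere x r) := hcont.mono hsu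
  have key : ∀ w ∈ ball x r, PI u x r w = u w := by
    intro w hw
    have hwR : w ∈ ball c R := hsub (ball_subset_closedBall hw)
    have : ∀ ε > 0, |PI u x r w - u w| ≤ 2 * ε := by
      intro ε hε
      obtain ⟨v, hv, huv⟩ := h ε hε
      have hvc : ContinuousOn v (sphere x r) := hv.continuousOn.mono hsu
      have h1 : PI v x r w = v w := HarmonicOnNhd.circleAverage_re_herglotzRieszKernel_smul (hv.mono hsub) hw
      have h2 : |PI (u - v) x r w| ≤ ε := PI_abs_le hw (huc.sub hvc) (fun z hz => huv z (hsu hz))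
      rw [PI_sub hw huc hvc, h1] at h2
      have h3 := huv w hwR
      have e : PI u x r w - u w = (PI u x r w - v w) - (u w - v w) := by ring
      rw [e]
      have := abs_sub (PI u x r w - v w) (u w - v w)
      linarith
    by_contra hne
    have hpos : 0 < |PI u x r w - u w| := abs_pos.mpr (sub_ne_zero.mpr hne)
    have := this (|PI u x r w - u w| / 4) (by positivity)
    linarith
  have h1 := PI_harmonic huc hr x (mem_ball_self hr)
  refine (harmonicAt_congr_nhds ?_).mp h1
  filter_upwards [ball_mem_nhds x hr] with w hw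
  exact key w hw

end Pool.Agent.Helper56.Harm
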