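import Mathlib
import Pool.Agent.Helper56.Harm.A
import Pool.Agent.Helper65.Base

/-! Invariance under real translations. -/

open Complex Metric Set Filter Topology InnerProductSpace

namespace Pool.Agent.Helper56.Harm

open Pool.Agent.Helper65

lemma harmonicAt_sum {ι : Type*} (s : Finset ι) {f : ι → ℂ → ℝ} {z : ℂ}
    (h : ∀ i ∈ s, HarmonicAt (f i) z) : HarmonicAt (fun x => ∑ i ∈ s, f i x) z := by
  classical
  induction s using Finset.induction_on with
  | empty =>
    simp only [Finset.sum_empty]
    exact harmonicAt_const _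
  | insert a s ha ih =>
    have e : (fun x => ∑ i ∈ insert a s, f i x) = f a + fun x => ∑ i ∈ s, f i x := by
      funext x
      rw [Finset.sum_insert ha]
      rfl
    rw [e]
    exact (h a (Finset.mem_insert_self a s)).add (ih fun i hi => h i (Finset.mem_insert_of_mem hi))

/-- the average over unit horizontal segments differs from `g` by a harmonic function -/
lemma avg_sub_harmonic {g : ℂ → ℝ} (hg : Continuous g) (h : ∀ c : ℝ, (c : ℂ) ∈ Tr g) :
    HarmonicOnNhd (fun z => (∫ t in (0 : ℝ)..1, g (z + t)) - g z) univ := by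
  intro z0 _
  have key : HarmonicOnNhd (fun z => (∫ t in (0 : ℝ)..1, g (z + t)) - g z) (ball z0 1) := by
    apply harmonic_of_unif
    intro ε hε
    have huc : UniformContinuousOn g (closedBall z0 3) :=
      (isCompact_closedBall z0 3).uniformContinuousOn_of_continuous hg.continuousOn
    rw [Metric.uniformContinuousOn_iff] at huc
    obtain ⟨δ, hδ, huc⟩ := huc ε hε
    obtain ⟨n, hn⟩ := exists_nat_gt (1 / δ)
    have hn0 : (0 : ℝ) < n := lt_trans (by positivity) hn
    have hnn : (n : ℝ) ≠ 0 := hn0.ne'
    have hnδ : 1 / (n : ℝ) < δ := by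
      rw [div_lt_iff₀ hn0]
      rw [div_lt_iff₀ hδ] at hn
      linarith
    refine ⟨fun z => ∑ k ∈ Finset.range n, (1 / (n : ℝ)) • (g (z + ((k / n : ℝ) : ℂ)) - g z), ?_, ?_⟩
    · intro z _
      apply harmonicAt_sum
      intro k _
      exact (h (k / n) z (mem_univ z)).const_smul
    · intro z hz
      set a : ℕ → ℝ := fun k => (k : ℝ) / n with ha
      have hgc : Continuous (fun t : ℝ => g (z + t)) := by fun_prop
      have h1 : ∑ k ∈ Finset.range n, ∫ t in (a k)..(a (k + 1)), g (z + t) =
          ∫ t in (0 : ℝ)..1, g (z + t) := by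
        rw [intervalIntegral.sum_integral_adjacent_intervals (fun k _ => hgc.intervalIntegrable _ _)]
        simp only [ha]
        rw [Nat.cast_zero, zero_div, div_self hnn]
      have h2 : ∀ k ∈ Finset.range n, |(∫ t in (a k)..(a (k + 1)), g (z + t)) -
          (1 / (n : ℝ)) • g (z + ((k / n : ℝ) : ℂ))| ≤ ε * (1 / n) := by
        intro k hk
        have hkn : (k : ℝ) + 1 ≤ n := by
          have := Finset.mem_range.mp hk
          exact_mod_cast this
        have hstep : a (k + 1) - a k = 1 / n := by
          simp only [ha]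
          push_cast
          field_simp
          ring
        have h3 : (1 / (n : ℝ)) • g (z + ((k / n : ℝ) : ℂ)) =
            ∫ t in (a k)..(a (k + 1)), g (z + ((k / n : ℝ) : ℂ)) := by
          rw [intervalIntegral.integral_const, hstep]
        rw [h3, ← intervalIntegral.integral_sub (hgc.intervalIntegrable _ _)
          (continuous_const.intervalIntegrable _ _), ← Real.norm_eq_abs]
        have h4 : |a (k + 1) - a k| = 1 / n := by
          rw [hstep, abs_of_pos (by positivity)]
        rw [← h4]
        apply intervalIntegral.norm_integral_le_of_norm_le_const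
        intro t ht
        have hak : a k ≤ a (k + 1) := by linarith [hstep, (by positivity : (0 : ℝ) < 1 / n)]
        rw [uIoc_of_le hak] at ht
        have hak0 : 0 ≤ a k := by simp only [ha]; positivity
        have hak1 : a (k + 1) ≤ 1 := by
          simp only [ha]
          rw [div_le_one hn0]
          push_cast
          exact hkn
        have ht0 : 0 ≤ t := hak0.trans ht.1.le
        have ht1 : t ≤ 1 := ht.2.trans hak1
        have m1 : z + (t : ℂ) ∈ closedBall z0 3 := by
          rw [mem_closedBall, dist_eq_norm]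
          rw [mem_ball, dist_eq_norm] at hz
          calc ‖z + t - z0‖ = ‖(z - z0) + t‖ := by congr 1; ring
            _ ≤ ‖z - z0‖ + ‖(t : ℂ)‖ := norm_add_le _ _
            _ ≤ 1 + 1 := by
              apply add_le_add hz.le
              rw [Complex.norm_real, Real.norm_of_nonneg ht0]
              exact ht1
            _ ≤ 3 := by norm_num
        have m2 : z + ((k / n : ℝ) : ℂ) ∈ closedBall z0 3 := by
          rw [mem_closedBall, dist_eq_norm]
          rw [mem_ball, dist_eq_norm] at hz
          calc ‖z + ((k / n : ℝ) : ℂ) - z0‖ = ‖(z - z0) + ((k / n : ℝ) : ℂ)‖ := by congr 1; ring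
            _ ≤ ‖z - z0‖ + ‖((k / n : ℝ) : ℂ)‖ := norm_add_le _ _
            _ ≤ 1 + 1 := by
              apply add_le_add hz.le
              rw [Complex.norm_real, Real.norm_of_nonneg (by positivity), div_le_one hn0]
              linarith
            _ ≤ 3 := by norm_num
        have h5 := huc _ m1 _ m2 (by
          rw [dist_eq_norm]
          have e : z + (t : ℂ) - (z + ((k / n : ℝ) : ℂ)) = ((t - a k : ℝ) : ℂ) := by
            simp only [ha]
            push_cast
            ring
          rw [e, Complex.norm_real, Real.norm_eq_abs, abs_of_nonneg (by linarith [ht.1])]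
          linarith [ht.2])
        rw [dist_eq_norm] at h5
        exact h5.le
      have e1 : (∫ t in (0 : ℝ)..1, g (z + t)) - g z -
          ∑ k ∈ Finset.range n, (1 / (n : ℝ)) • (g (z + ((k / n : ℝ) : ℂ)) - g z) =
          ∑ k ∈ Finset.range n, ((∫ t in (a k)..(a (k + 1)), g (z + t)) -
            (1 / (n : ℝ)) • g (z + ((k / n : ℝ) : ℂ))) := by
        rw [Finset.sum_sub_distrib, h1]
        have e2 : ∑ k ∈ Finset.range n, (1 / (n : ℝ)) • (g (z + ((k / n : ℝ) : ℂ)) - g z) =
            (∑ k ∈ Finset.range n, (1 / (n : ℝ)) • g (z + ((k / n : ℝ) : ℂ))) - g z := by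
          have e3 : ∀ k ∈ Finset.range n, (1 / (n : ℝ)) • (g (z + ((k / n : ℝ) : ℂ)) - g z) =
              (1 / (n : ℝ)) • g (z + ((k / n : ℝ) : ℂ)) - (1 / (n : ℝ)) • g z := fun k _ => smul_sub _ _ _
          rw [Finset.sum_congr rfl e3, Finset.sum_sub_distrib, Finset.sum_const, Finset.card_range,
            nsmul_eq_mul, smul_eq_mul, ← mul_assoc, mul_one_div_cancel hnn, one_mul]
        rw [e2]
        ring
      show |(∫ t in (0 : ℝ)..1, g (z + t)) - g z -
          ∑ k ∈ Finset.range n, (1 / (n : ℝ)) • (g (z + ((k / n : ℝ) : ℂ)) - g z)| ≤ ε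
      rw [e1]
      refine (Finset.abs_sum_le_sum_abs _ _).trans ((Finset.sum_le_sum h2).trans ?_)
      rw [Finset.sum_const, Finset.card_range, nsmul_eq_mul]
      apply le_of_eq
      field_simp
  exact key z0 (mem_ball_self one_pos)

/-- invariance under real translations -/
theorem exists_strip {g : ℂ → ℝ} (hg : Continuous g) (h : ∀ c : ℝ, (c : ℂ) ∈ Tr g) :
    ∃ k : ℝ → ℝ, Continuous k ∧ HarmonicOnNhd (fun z => g z - k z.im) univ := by
  set g1 : ℂ → ℝ := fun z => ∫ t in (0 : ℝ)..1, g (z + t) with hg1
  have hg1c : Continuous g1 := by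
    apply intervalIntegral.continuous_parametric_intervalIntegral_of_continuous'
    fun_prop
  have hharm : HarmonicOnNhd (fun z => g1 z - g z) univ := avg_sub_harmonic hg h
  obtain ⟨φ, hφ, hφ2⟩ := InnerProductSpace.HarmonicOnNhd.exists_analyticOnNhd_univ_re_eq (h 1)
  have hφd : Differentiable ℂ φ := fun z => (hφ z (mem_univ z)).differentiableAt
  obtain ⟨Φ, hΦ⟩ := hφd.isExactOn_univ
  have hΦd : Differentiable ℂ Φ := fun z => (hΦ z (mem_univ z)).differentiableAt
  have hk : ∀ z : ℂ, g1 z - (Φ z).re = g1 (z.im * I) - (Φ (z.im * I)).re := by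
    intro z
    set y := z.im
    set F : ℝ → ℝ := fun x => g1 (x + y * I) - (Φ (x + y * I)).re with hF
    set G : ℝ → ℝ := fun s => g (s + y * I) with hG
    have hGc : Continuous G := by fun_prop
    have hg1x : ∀ x : ℝ, g1 (x + y * I) = (∫ s in (0 : ℝ)..(x + 1), G s) - ∫ s in (0 : ℝ)..x, G s := by
      intro x
      rw [intervalIntegral.integral_interval_sub_left (hGc.intervalIntegrable _ _)
        (hGc.intervalIntegrable _ _)]
      have h1 : g1 (x + y * I) = ∫ t in (0 : ℝ)..1, G (x + t) := by
        simp only [hg1, hG]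
        congr 1
        funext t
        congr 1
        push_cast
        ring
      rw [h1, intervalIntegral.integral_comp_add_left (fun s => G s), add_zero]
    have hder : ∀ x : ℝ, HasDerivAt F 0 x := by
      intro x
      have d1 : HasDerivAt (fun x => ∫ s in (0 : ℝ)..x, G s) (G x) x :=
        (hGc.integral_hasStrictDerivAt 0 x).hasDerivAt
      have d2 : HasDerivAt (fun x => ∫ s in (0 : ℝ)..(x + 1), G s) (G (x + 1)) x := by
        have := (hGc.integral_hasStrictDerivAt 0 (x + 1)).hasDerivAt
        exact HasDerivAt.comp_add_const x 1 this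
      have d3 : HasDerivAt (fun x : ℝ => Φ (x + y * I)) (φ (x + y * I)) x := by
        have h1 := (hΦ (x + y * I) (mem_univ _))
        have h2 : HasDerivAt (fun z : ℂ => Φ (z + y * I)) (φ (x + y * I)) (x : ℂ) :=
          HasDerivAt.comp_add_const (x : ℂ) (y * I) h1
        exact h2.comp_ofReal
      have d4 : HasDerivAt (fun x : ℝ => (Φ (x + y * I)).re) (φ (x + y * I)).re x :=
        (Complex.reCLM.hasFDerivAt.comp_hasDerivAt x d3)
      have d5 := (d2.sub d1).sub d4
      have e1 : F = (fun x => ((∫ s in (0 : ℝ)..(x + 1), G s) - ∫ s in (0 : ℝ)..x, G s) -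
          (Φ (x + y * I)).re) := by
        funext x
        simp only [hF]
        rw [hg1x]
      rw [e1]
      have e2 : G (x + 1) - G x - (φ (x + y * I)).re = 0 := by
        have h1 : (φ (x + y * I)).re = g (x + y * I + ((1 : ℝ) : ℂ)) - g (x + y * I) :=
          congrFun hφ2 (x + y * I)
        rw [h1]
        simp only [hG]
        have : (((x + 1 : ℝ) : ℂ) + y * I) = x + y * I + ((1 : ℝ) : ℂ) := by push_cast; ring
        rw [this]
        ring
      rw [e2] at d5
      exact d5
    have hconst := is_const_of_deriv_eq_zero (fun x => (hder x).differentiableAt)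
      (fun x => (hder x).deriv) z.re 0
    simp only [hF] at hconst
    rw [Complex.re_add_im] at hconst
    rw [hconst, Complex.ofReal_zero, zero_add]
  refine ⟨fun y => g1 (y * I) - (Φ (y * I)).re, ?_, ?_⟩
  · apply Continuous.sub
    · exact hg1c.comp (by fun_prop)
    · exact Complex.continuous_re.comp (hΦd.continuous.comp (by fun_prop))
  · intro z _
    have e : (fun z : ℂ => g z - (g1 (z.im * I) - (Φ (z.im * I)).re)) =
        (fun z => (Φ z).re) - fun z => g1 z - g z := by
      funext z
      rw [← hk z]
      simp only [Pi.sub_apply]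
      ring
    show HarmonicAt (fun z : ℂ => g z - (g1 (z.im * I) - (Φ (z.im * I)).re)) z
    rw [e]
    exact (hΦd.analyticAt z).harmonicAt_re.sub (hharm z (mem_univ z))

end Pool.Agent.Helper56.Harm
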