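import Mathlib
import Pool.Agent.Helper56.Harm.A

/-! Approximation on circles, maximum principle, small circle averages, removable singularities. -/

open Complex Metric Set Filter Topology InnerProductSpace

namespace Pool.Agent.Helper56.Harm

lemma fact_two_pi : Fact (0 < 2 * Real.pi) := ⟨by positivity⟩

lemma span_re {f : C(AddCircle (2 * Real.pi), ℂ)}
    (hf : f ∈ Submodule.span ℂ (range (@fourier (2 * Real.pi)))) :
    ∀ a : ℂ, ∃ P : Polynomial ℂ, ∀ x : ℝ, (a * f (x : AddCircle (2 * Real.pi))).re =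
      (P.eval (Complex.exp (x * I))).re := by
  induction hf using Submodule.span_induction with
  | mem f hf =>
    obtain ⟨n, rfl⟩ := hf
    intro a
    have hval : ∀ x : ℝ, fourier n (x : AddCircle (2 * Real.pi)) = Complex.exp (n * (x * I)) := by
      intro x
      rw [fourier_coe_apply]
      congr 1
      push_cast
      have : (Real.pi : ℂ) ≠ 0 := by exact_mod_cast Real.pi_ne_zero
      field_simp
    rcases Int.le_total 0 n with hn | hn
    · obtain ⟨k, rfl⟩ := Int.eq_ofNat_of_zero_le hn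
      refine ⟨Polynomial.C a * Polynomial.X ^ k, fun x => ?_⟩
      rw [hval, Polynomial.eval_mul, Polynomial.eval_C, Polynomial.eval_pow, Polynomial.eval_X,
        ← Complex.exp_nat_mul]
      simp
    · obtain ⟨k, hk⟩ := Int.eq_ofNat_of_zero_le (Int.neg_nonneg_of_nonpos hn)
      refine ⟨Polynomial.C ((starRingEnd ℂ) a) * Polynomial.X ^ k, fun x => ?_⟩
      rw [hval, Polynomial.eval_mul, Polynomial.eval_C, Polynomial.eval_pow, Polynomial.eval_X,
        ← Complex.exp_nat_mul, ← Complex.conj_re, map_mul, ← Complex.exp_conj]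
      congr 3
      have hn' : n = -(k : ℤ) := by
        have : -n = (k : ℤ) := hk
        omega
      rw [hn', map_mul, map_mul, Complex.conj_I, Complex.conj_ofReal]
      push_cast
      rw [map_neg, Complex.conj_natCast]
      ring
  | zero => exact fun a => ⟨0, fun x => by simp⟩
  | add f g _ _ hf hg =>
    intro a
    obtain ⟨P, hP⟩ := hf a
    obtain ⟨Q, hQ⟩ := hg a
    refine ⟨P + Q, fun x => ?_⟩
    rw [ContinuousMap.add_apply, mul_add, Complex.add_re, hP, hQ, Polynomial.eval_add, Complex.add_re]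
  | smul c f _ hf =>
    intro a
    obtain ⟨P, hP⟩ := hf (a * c)
    refine ⟨P, fun x => ?_⟩
    rw [← hP x, ContinuousMap.smul_apply, smul_eq_mul, mul_assoc]

/-- Approximation on a circle by real parts of entire functions. -/
theorem approx_sphere {u : ℂ → ℝ} {c : ℂ} {r : ℝ} (hr : 0 < r) (hu : ContinuousOn u (sphere c r))
    {ε : ℝ} (hε : 0 < ε) :
    ∃ ψ : ℂ → ℂ, Differentiable ℂ ψ ∧ ∀ z ∈ sphere c r, |u z - (ψ z).re| ≤ ε := by
  have := fact_two_pi
  have hgs : ∀ θ : AddCircle (2 * Real.pi), c + r * (AddCircle.toCircle θ : ℂ) ∈ sphere c r := by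
    intro θ
    rw [mem_sphere, dist_eq_norm, add_sub_cancel_left, norm_mul, Complex.norm_real,
      Real.norm_of_nonneg hr.le, Circle.norm_coe, mul_one]
  have hfc : Continuous (fun θ : AddCircle (2 * Real.pi) => (u (c + r * (AddCircle.toCircle θ : ℂ)) : ℂ)) := by
    apply Complex.continuous_ofReal.comp
    apply hu.comp_continuous _ hgs
    exact continuous_const.add (continuous_const.mul (continuous_subtype_val.comp AddCircle.continuous_toCircle))
  let f : C(AddCircle (2 * Real.pi), ℂ) := ⟨_, hfc⟩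
  have hmem : f ∈ (Submodule.span ℂ (range (@fourier (2 * Real.pi)))).topologicalClosure := by
    rw [span_fourier_closure_eq_top]
    trivial
  have hmem2 : f ∈ closure (Submodule.span ℂ (range (@fourier (2 * Real.pi))) : Set _) := hmem
  obtain ⟨h, hh, hd⟩ := Metric.mem_closure_iff.mp hmem2 ε hε
  obtain ⟨P, hP⟩ := span_re hh 1
  refine ⟨fun z => P.eval ((z - c) / r), ?_, ?_⟩
  · exact P.differentiable.comp ((differentiable_id.sub_const c).div_const _)
  · intro z hz
    rw [mem_sphere, dist_eq_norm] at hz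
    set x : ℝ := Complex.arg (z - c) with hx
    have h1 : z - c = r * Complex.exp (x * I) := by
      rw [hx, ← hz, Complex.norm_mul_exp_arg_mul_I]
    have hr' : (r : ℂ) ≠ 0 := by exact_mod_cast hr.ne'
    have h2 : (z - c) / r = Complex.exp (x * I) := by
      rw [h1]
      field_simp
    have h3 : f (x : AddCircle (2 * Real.pi)) = (u z : ℂ) := by
      show (u (c + r * (AddCircle.toCircle (x : AddCircle (2 * Real.pi)) : ℂ)) : ℂ) = _
      congr 2
      rw [AddCircle.toCircle_apply_mk, Circle.coe_exp]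
      have : ((2 * Real.pi / (2 * Real.pi) * x : ℝ) : ℂ) = x := by
        rw [div_self (by positivity), one_mul]
      rw [this, ← h1]
      ring
    show |u z - (P.eval ((z - c) / r)).re| ≤ ε
    rw [h2, ← hP x, one_mul]
    have h4 : u z = (f (x : AddCircle (2 * Real.pi))).re := by rw [h3, Complex.ofReal_re]
    rw [h4, ← Complex.sub_re, ← ContinuousMap.sub_apply]
    refine (Complex.abs_re_le_norm _).trans ((ContinuousMap.norm_coe_le_norm _ _).trans ?_)
    rw [← dist_eq_norm]
    exact hd.le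

lemma avg_norm_sq (z0 : ℂ) {ρ : ℝ} (hρ : 0 < ρ) :
    Real.circleAverage (fun z => ‖z‖ ^ 2) z0 ρ = ‖z0‖ ^ 2 + ρ ^ 2 := by
  have h1 : Real.circleAverage (fun z => ‖z‖ ^ 2) z0 ρ =
      Real.circleAverage (fun z => ((‖z0‖ ^ 2 + ρ ^ 2 : ℝ) + 2 * (starRingEnd ℂ) z0 * (z - z0) : ℂ).re) z0 ρ := by
    apply Real.circleAverage_congr_sphere
    intro z hz
    rw [abs_of_pos hρ, mem_sphere, dist_eq_norm] at hz
    simp only
    have h2 : ‖z‖ ^ 2 = ‖z0 + (z - z0)‖ ^ 2 := by rw [add_sub_cancel]
    rw [h2, ← Complex.normSq_eq_norm_sq, Complex.normSq_add, Complex.normSq_eq_norm_sq,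
      Complex.normSq_eq_norm_sq, hz, Complex.add_re, Complex.ofReal_re]
    congr 1
    rw [← Complex.conj_re, map_mul, Complex.conj_conj]
    rw [mul_assoc]
    simp
  rw [h1]
  have h2 : HarmonicOnNhd (fun z => ((‖z0‖ ^ 2 + ρ ^ 2 : ℝ) + 2 * (starRingEnd ℂ) z0 * (z - z0) : ℂ).re)
      (closedBall z0 |ρ|) := by
    intro z _
    apply AnalyticAt.harmonicAt_re
    fun_prop
  rw [InnerProductSpace.HarmonicOnNhd.circleAverage_eq h2, sub_self, mul_zero, add_zero,
    Complex.ofReal_re]

/-- Maximum principle for functions with almost the sub-mean value property. -/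
theorem max_principle {K U : Set ℂ} (hK : IsCompact K) (hU : IsOpen U) (hUK : U ⊆ K) {v : ℂ → ℝ}
    (hv : ContinuousOn v K)
    (hav : ∀ z ∈ U, ∃ C δ : ℝ, 0 < δ ∧ ∀ ρ, 0 < ρ → ρ < δ → v z ≤ Real.circleAverage v z ρ + C * ρ ^ 3)
    {M : ℝ} (hM : ∀ z ∈ K \ U, v z ≤ M) : ∀ z ∈ K, v z ≤ M := by
  intro z1 hz1
  obtain ⟨D, hD⟩ := hK.isBounded.exists_norm_le
  have key : ∀ a > 0, v z1 ≤ M + a * D ^ 2 := by
    intro a ha
    have hw : ContinuousOn (fun z => v z + a * ‖z‖ ^ 2) K := hv.add (by fun_prop)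
    obtain ⟨z0, hz0, hmax⟩ := hK.exists_isMaxOn ⟨z1, hz1⟩ hw
    have hmax' : ∀ z ∈ K, v z + a * ‖z‖ ^ 2 ≤ v z0 + a * ‖z0‖ ^ 2 := fun z hz => hmax hz
    have hz0U : z0 ∉ U := by
      intro hz0U
      obtain ⟨C, δ, hδ, hC⟩ := hav z0 hz0U
      obtain ⟨δ', hδ', hsub⟩ := Metric.nhds_basis_closedBall.mem_iff.mp (hU.mem_nhds hz0U)
      have hsmall : ∀ ρ, 0 < ρ → ρ < min δ δ' → a ≤ C * ρ := by
        intro ρ hρ hρδ
        have hρ1 : ρ < δ := lt_of_lt_of_le hρδ (min_le_left _ _)
        have hρ2 : ρ < δ' := lt_of_lt_of_le hρδ (min_le_right _ _)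
        have hsp : sphere z0 ρ ⊆ K :=
          (sphere_subset_closedBall.trans (closedBall_subset_closedBall hρ2.le)).trans (hsub.trans hUK)
        have hvi : CircleIntegrable v z0 ρ := (hv.mono hsp).circleIntegrable hρ.le
        have hni : CircleIntegrable (fun z : ℂ => a * ‖z‖ ^ 2) z0 ρ :=
          (by fun_prop : ContinuousOn (fun z : ℂ => a * ‖z‖ ^ 2) (sphere z0 ρ)).circleIntegrable hρ.le
        have h1 : Real.circleAverage (fun z => v z + a * ‖z‖ ^ 2) z0 ρ ≤ v z0 + a * ‖z0‖ ^ 2 := by
          apply Real.circleAverage_mono_on_of_le_circle (hvi.add hni)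
          intro z hz
          rw [abs_of_pos hρ] at hz
          exact hmax' z (hsp hz)
        have h2 : Real.circleAverage (fun z => v z + a * ‖z‖ ^ 2) z0 ρ =
            Real.circleAverage v z0 ρ + a * (‖z0‖ ^ 2 + ρ ^ 2) := by
          rw [Real.circleAverage_fun_add hvi hni, ← avg_norm_sq z0 hρ]
          congr 1
          exact Real.circleAverage_fun_smul (a := a) (f := fun z : ℂ => ‖z‖ ^ 2)
        have h3 := hC ρ hρ hρ1
        rw [h2] at h1
        have h4 : a * ρ ^ 2 ≤ C * ρ * ρ ^ 2 := by nlinarith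
        exact le_of_mul_le_mul_right h4 (by positivity)
      have h1 := hsmall (min (min δ δ' / 2) (a / (2 * (|C| + 1)))) (by positivity)
        (lt_of_le_of_lt (min_le_left _ _) (by
          have : 0 < min δ δ' := lt_min hδ hδ'
          linarith))
      have h2 : C * min (min δ δ' / 2) (a / (2 * (|C| + 1))) ≤ a / 2 := by
        have h3 : 0 < min (min δ δ' / 2) (a / (2 * (|C| + 1))) := by positivity
        calc C * min (min δ δ' / 2) (a / (2 * (|C| + 1))) ≤
              (|C| + 1) * min (min δ δ' / 2) (a / (2 * (|C| + 1))) := by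
              apply mul_le_mul_of_nonneg_right _ h3.le
              linarith [le_abs_self C]
          _ ≤ (|C| + 1) * (a / (2 * (|C| + 1))) := by
              apply mul_le_mul_of_nonneg_left (min_le_right _ _) (by positivity)
          _ = a / 2 := by field_simp
      linarith
    have h1 := hM z0 ⟨hz0, hz0U⟩
    have h2 := hmax' z1 hz1
    have h3 : ‖z0‖ ^ 2 ≤ D ^ 2 := pow_le_pow_left₀ (norm_nonneg _) (hD z0 hz0) 2
    have h4 : 0 ≤ a * ‖z1‖ ^ 2 := by positivity
    nlinarith
  by_contra hcon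
  rw [not_le] at hcon
  have h1 := key ((v z1 - M) / (2 * (D ^ 2 + 1))) (by
    apply div_pos (by linarith) (by positivity))
  have h2 : (v z1 - M) / (2 * (D ^ 2 + 1)) * D ^ 2 ≤ (v z1 - M) / 2 := by
    rw [div_mul_eq_mul_div, div_le_div_iff₀ (by positivity) (by norm_num)]
    nlinarith [sq_nonneg D]
  linarith

lemma circleAverage_neg' (f : ℂ → ℝ) (c : ℂ) (R : ℝ) :
    Real.circleAverage (-f) c R = -Real.circleAverage f c R := by
  have h := Real.circleAverage_smul (a := (-1 : ℝ)) (f := f) (c := c) (R := R)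
  simpa only [neg_smul, one_smul] using h

/-- small circle averages -/
theorem harmonic_of_avg {u : ℂ → ℝ} {c : ℂ} {R : ℝ} (hu : ContinuousOn u (ball c R))
    {C δ : ℝ} (hδ : 0 < δ)
    (h : ∀ (z : ℂ) (ρ : ℝ), 0 < ρ → ρ < δ → closedBall z ρ ⊆ ball c R →
      |Real.circleAverage u z ρ - u z| ≤ C * ρ ^ 3) :
    HarmonicOnNhd u (ball c R) := by
  intro x hx
  obtain ⟨r, hr, hsub⟩ := Metric.nhds_basis_closedBall.mem_iff.mp (isOpen_ball.mem_nhds hx)
  have key : HarmonicOnNhd u (ball x r) := by
    apply harmonic_of_unif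
    intro ε hε
    obtain ⟨ψ, hψ, hψs⟩ := approx_sphere hr (hu.mono (sphere_subset_closedBall.trans hsub)) hε
    have hψh : HarmonicOnNhd (fun z => (ψ z).re) univ := fun z _ => (hψ.analyticAt z).harmonicAt_re
    refine ⟨fun z => (ψ z).re, hψh.mono (subset_univ _), ?_⟩
    have hav : ∀ z ∈ ball x r, ∃ δ' : ℝ, 0 < δ' ∧ ∀ ρ, 0 < ρ → ρ < δ' →
        |Real.circleAverage (fun z => u z - (ψ z).re) z ρ - (u z - (ψ z).re)| ≤ C * ρ ^ 3 := by
      intro z hz
      obtain ⟨δ', hδ', hsub'⟩ := Metric.nhds_basis_closedBall.mem_iff.mp (isOpen_ball.mem_nhds hz)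
      refine ⟨min δ δ', lt_min hδ hδ', fun ρ hρ hρδ => ?_⟩
      have hρ1 : ρ < δ := lt_of_lt_of_le hρδ (min_le_left _ _)
      have hρ2 : ρ < δ' := lt_of_lt_of_le hρδ (min_le_right _ _)
      have hcb : closedBall z ρ ⊆ ball c R :=
        (closedBall_subset_closedBall hρ2.le).trans (hsub'.trans (ball_subset_closedBall.trans hsub))
      have h1 := h z ρ hρ hρ1 hcb
      have h2 : Real.circleAverage (fun z => u z - (ψ z).re) z ρ =
          Real.circleAverage u z ρ - Real.circleAverage (fun z => (ψ z).re) z ρ := by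
        apply Real.circleAverage_fun_sub
        · exact (hu.mono (sphere_subset_closedBall.trans hcb)).circleIntegrable hρ.le
        · exact (Complex.continuous_re.comp hψ.continuous).continuousOn.circleIntegrable hρ.le
      have h3 : Real.circleAverage (fun z => (ψ z).re) z ρ = (ψ z).re :=
        InnerProductSpace.HarmonicOnNhd.circleAverage_eq (hψh.mono (subset_univ _))
      rw [h2, h3]
      have e : Real.circleAverage u z ρ - (ψ z).re - (u z - (ψ z).re) = Real.circleAverage u z ρ - u z := by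
        ring
      rw [e]
      exact h1
    have hcont : ContinuousOn (fun z => u z - (ψ z).re) (closedBall x r) :=
      (hu.mono hsub).sub (Complex.continuous_re.comp hψ.continuous).continuousOn
    have hbd : ∀ z ∈ closedBall x r \ ball x r, |u z - (ψ z).re| ≤ ε := by
      intro z hz
      apply hψs
      rw [mem_sphere]
      have h1 := hz.1
      have h2 := hz.2
      rw [mem_closedBall] at h1
      rw [mem_ball, not_lt] at h2
      exact le_antisymm h1 h2
    have m1 := max_principle (isCompact_closedBall x r) isOpen_ball ball_subset_closedBall hcont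
      (fun z hz => by
        obtain ⟨δ', hδ', hC⟩ := hav z hz
        refine ⟨C, δ', hδ', fun ρ hρ hρδ => ?_⟩
        have := (abs_le.mp (hC ρ hρ hρδ)).1
        linarith) (M := ε) (fun z hz => (abs_le.mp (hbd z hz)).2)
    have m2 := max_principle (isCompact_closedBall x r) isOpen_ball ball_subset_closedBall hcont.neg
      (fun z hz => by
        obtain ⟨δ', hδ', hC⟩ := hav z hz
        refine ⟨C, δ', hδ', fun ρ hρ hρδ => ?_⟩
        have h1 := (abs_le.mp (hC ρ hρ hρδ)).2
        have h2 : Real.circleAverage (-(fun z => u z - (ψ z).re)) z ρ =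
            -Real.circleAverage (fun z => u z - (ψ z).re) z ρ := circleAverage_neg' _ _ _
        have h3 : (-(fun z => u z - (ψ z).re)) z = -(u z - (ψ z).re) := rfl
        rw [h2, h3]
        linarith) (M := ε) (fun z hz => by
          have h3 : (-(fun z => u z - (ψ z).re)) z = -(u z - (ψ z).re) := rfl
          rw [h3]
          linarith [(abs_le.mp (hbd z hz)).1])
    intro z hz
    have h1 := m1 z (ball_subset_closedBall hz)
    have h2 := m2 z (ball_subset_closedBall hz)
    have h3 : (-(fun z => u z - (ψ z).re)) z = -(u z - (ψ z).re) := rfl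
    rw [h3] at h2
    rw [abs_le]
    constructor <;> linarith
  exact key x (mem_ball_self hr)

end Pool.Agent.Helper56.Harm
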