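import Mathlib
import Pool.Agent.Helper56.Harm.B

/-! Area mean value property and `L¹` limits of harmonic functions. -/

open Complex Metric Set Filter Topology InnerProductSpace MeasureTheory

namespace Pool.Agent.Helper56.Harm

lemma polar_circleMap (z : ℂ) (p : ℝ × ℝ) : z + Complex.polarCoord.symm p = circleMap z p.1 p.2 := by
  rw [Complex.polarCoord_symm_apply, circleMap, Complex.exp_mul_I, Complex.ofReal_cos, Complex.ofReal_sin]

lemma integral_ball_polar {v : ℂ → ℝ} {z : ℂ} {r : ℝ} (hv : ContinuousOn v (closedBall z r)) :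
    ∫ w in ball z r, v w = ∫ s in Ioo 0 r, s * (2 * Real.pi * Real.circleAverage v z s) := by
  have h1 : ∫ w in ball z r, v w = ∫ w, (ball z r).indicator v (z + w) := by
    rw [← integral_indicator measurableSet_ball, integral_add_left_eq_self]
  rw [h1, ← Complex.integral_comp_polarCoord_symm, polarCoord_target]
  have h2 : ∫ p in Ioi (0 : ℝ) ×ˢ Ioo (-Real.pi) Real.pi,
      p.1 • (ball z r).indicator v (z + Complex.polarCoord.symm p) =
      ∫ p in Ioi (0 : ℝ) ×ˢ Ioo (-Real.pi) Real.pi,
        (Iio r ×ˢ univ).indicator (fun p : ℝ × ℝ => p.1 • v (circleMap z p.1 p.2)) p := by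
    apply setIntegral_congr_fun (measurableSet_Ioi.prod measurableSet_Ioo)
    intro p hp
    have hp1 : 0 < p.1 := hp.1
    simp only
    rw [polar_circleMap]
    have hd : dist (circleMap z p.1 p.2) z = p.1 := by
      rw [dist_eq_norm, circleMap_sub_center, norm_circleMap_zero, abs_of_pos hp1]
    by_cases hpr : p.1 < r
    · rw [indicator_of_mem (show circleMap z p.1 p.2 ∈ ball z r by rw [mem_ball, hd]; exact hpr),
        indicator_of_mem (show p ∈ Iio r ×ˢ univ from ⟨hpr, mem_univ _⟩)]
    · rw [indicator_of_notMem (show circleMap z p.1 p.2 ∉ ball z r by rw [mem_ball, hd]; exact hpr),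
        indicator_of_notMem (show p ∉ Iio r ×ˢ univ from fun h => hpr h.1), smul_zero]
  rw [h2, setIntegral_indicator (measurableSet_Iio.prod MeasurableSet.univ), Set.prod_inter_prod,
    Set.Ioi_inter_Iio, inter_univ]
  have hcont : ContinuousOn (fun p : ℝ × ℝ => p.1 • v (circleMap z p.1 p.2))
      (Icc 0 r ×ˢ Icc (-Real.pi) Real.pi) := by
    have h3 : ContinuousOn (fun p : ℝ × ℝ => v (circleMap z p.1 p.2))
        (Icc 0 r ×ˢ Icc (-Real.pi) Real.pi) := by
      apply hv.comp
      · apply Continuous.continuousOn
        unfold circleMap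
        fun_prop
      · intro p hp
        rw [mem_closedBall, dist_eq_norm, circleMap_sub_center, norm_circleMap_zero,
          abs_of_nonneg hp.1.1]
        exact hp.1.2
    exact continuous_fst.continuousOn.smul h3
  have hint : IntegrableOn (fun p : ℝ × ℝ => p.1 • v (circleMap z p.1 p.2))
      (Ioo 0 r ×ˢ Ioo (-Real.pi) Real.pi) (volume.prod volume) := by
    have h3 := hcont.integrableOn_compact (μ := volume) (isCompact_Icc.prod isCompact_Icc)
    rw [Measure.volume_eq_prod] at h3
    exact h3.mono_set (Set.prod_mono Ioo_subset_Icc_self Ioo_subset_Icc_self)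
  rw [Measure.volume_eq_prod, setIntegral_prod _ hint]
  apply setIntegral_congr_fun measurableSet_Ioo
  intro s hs
  simp only [smul_eq_mul]
  rw [integral_const_mul]
  congr 1
  rw [Real.circleAverage, smul_eq_mul, ← mul_assoc, mul_inv_cancel₀ (by positivity), one_mul,
    ← integral_Ioc_eq_integral_Ioo, ← intervalIntegral.integral_of_le (by linarith [Real.pi_pos])]
  have hper : Function.Periodic (fun θ => v (circleMap z s θ)) (2 * Real.pi) := by
    intro θ
    simp only
    rw [periodic_circleMap z s θ]
  have := hper.intervalIntegral_add_eq (-Real.pi) 0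
  rw [zero_add] at this
  rw [← this]
  congr 1
  ring

/-- The area mean value property. -/
lemma area_mean {v : ℂ → ℝ} {z : ℂ} {r : ℝ} (hr : 0 < r) (hv : HarmonicOnNhd v (closedBall z r)) :
    ∫ w in ball z r, v w = Real.pi * r ^ 2 * v z := by
  rw [integral_ball_polar (fun y hy => (hv y hy).1.continuousAt.continuousWithinAt)]
  have h1 : ∫ s in Ioo 0 r, s * (2 * Real.pi * Real.circleAverage v z s) =
      ∫ s in Ioo 0 r, s * (2 * Real.pi * v z) := by
    apply setIntegral_congr_fun measurableSet_Ioo
    intro s hs
    simp only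
    rw [InnerProductSpace.HarmonicOnNhd.circleAverage_eq]
    rw [abs_of_pos hs.1]
    exact hv.mono (closedBall_subset_closedBall hs.2.le)
  rw [h1, integral_mul_const, ← integral_Ioc_eq_integral_Ioo,
    ← intervalIntegral.integral_of_le hr.le, integral_id]
  ring

/-- `L¹` limits -/
theorem harmonic_of_L1 {u : ℂ → ℝ} {c : ℂ} {R : ℝ} (hu : ContinuousOn u (ball c R))
    (h : ∀ ε > (0 : ℝ), ∃ v : ℂ → ℝ, HarmonicOnNhd v (ball c R) ∧
      ∫⁻ z in ball c R, ENNReal.ofReal |u z - v z| ≤ ENNReal.ofReal ε) :
    HarmonicOnNhd u (ball c R) := by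
  intro x hx
  -- work in a smaller disc around x
  obtain ⟨r1, hr1, hsub⟩ := Metric.nhds_basis_closedBall.mem_iff.mp (isOpen_ball.mem_nhds hx)
  set r := r1 / 3 with hr
  have hr0 : 0 < r := by positivity
  -- averaged functions are harmonic
  have hav : ∀ s, 0 < s → s ≤ r → HarmonicOnNhd (fun z => (Real.pi * s ^ 2)⁻¹ * ∫ w in ball z s, u w)
      (ball x r) := by
    intro s hs hsr
    apply harmonic_of_unif
    intro ε hε
    obtain ⟨v, hv, hvL⟩ := h (ε * (Real.pi * s ^ 2)) (by positivity)
    refine ⟨v, hv.mono ?_, ?_⟩
    · exact (ball_subset_closedBall.trans (closedBall_subset_closedBall (by linarith))).trans hsub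
    · intro z hz
      have hzs : closedBall z s ⊆ ball c R := by
        refine Subset.trans ?_ hsub
        apply closedBall_subset_closedBall'
        rw [mem_ball] at hz
        linarith
      have huz : ContinuousOn u (closedBall z s) := hu.mono hzs
      have hvz : ContinuousOn v (closedBall z s) :=
        fun y hy => (hv y (hzs hy)).1.continuousAt.continuousWithinAt
      have hui : IntegrableOn u (ball z s) :=
        (huz.integrableOn_compact (isCompact_closedBall z s)).mono_set ball_subset_closedBall
      have hvi : IntegrableOn v (ball z s) :=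
        (hvz.integrableOn_compact (isCompact_closedBall z s)).mono_set ball_subset_closedBall
      have h1 : ∫ w in ball z s, v w = Real.pi * s ^ 2 * v z := area_mean hs (hv.mono hzs)
      have h2 : |∫ w in ball z s, (u w - v w)| ≤ ε * (Real.pi * s ^ 2) := by
        rw [← Real.norm_eq_abs]
        refine (norm_integral_le_lintegral_norm _).trans ?_
        rw [← ENNReal.toReal_ofReal (show 0 ≤ ε * (Real.pi * s ^ 2) by positivity)]
        apply ENNReal.toReal_mono ENNReal.ofReal_ne_top
        refine le_trans ?_ hvL
        exact lintegral_mono_set (ball_subset_closedBall.trans hzs)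
      rw [integral_sub hui hvi, h1] at h2
      have h3 : (Real.pi * s ^ 2)⁻¹ * (∫ w in ball z s, u w) - v z =
          (Real.pi * s ^ 2)⁻¹ * ((∫ w in ball z s, u w) - Real.pi * s ^ 2 * v z) := by
        field_simp
      rw [h3, abs_mul, abs_of_pos (by positivity), inv_mul_le_iff₀ (by positivity)]
      linarith
  have key : HarmonicOnNhd u (ball x r) := by
    apply harmonic_of_unif
    intro ε hε
    have huc : UniformContinuousOn u (closedBall x r1) :=
      (isCompact_closedBall x r1).uniformContinuousOn_of_continuous (hu.mono hsub)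
    rw [Metric.uniformContinuousOn_iff] at huc
    obtain ⟨δ, hδ, huc⟩ := huc ε hε
    set s := min r (δ / 2) with hs
    have hs0 : 0 < s := lt_min hr0 (by positivity)
    refine ⟨_, hav s hs0 (min_le_left _ _), fun z hz => ?_⟩
    have hzs : closedBall z s ⊆ closedBall x r1 := by
      apply closedBall_subset_closedBall'
      rw [mem_ball] at hz
      have := min_le_left r (δ / 2)
      linarith
    have huz : ContinuousOn u (closedBall z s) := hu.mono (hzs.trans hsub)
    have hui : IntegrableOn u (ball z s) :=
      (huz.integrableOn_compact (isCompact_closedBall z s)).mono_set ball_subset_closedBall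
    have hvol : (volume (ball z s)).toReal = Real.pi * s ^ 2 := by
      rw [Complex.volume_ball]
      simp only [ENNReal.toReal_mul, ENNReal.toReal_pow, ENNReal.toReal_ofReal hs0.le,
        ENNReal.coe_toReal, NNReal.coe_real_pi]
      ring
    have h1 : u z - (Real.pi * s ^ 2)⁻¹ * ∫ w in ball z s, u w =
        (Real.pi * s ^ 2)⁻¹ * ∫ w in ball z s, (u z - u w) := by
      have hfin : volume (ball z s) ≠ ⊤ := by
        rw [Complex.volume_ball]
        exact ENNReal.mul_ne_top (ENNReal.pow_ne_top ENNReal.ofReal_ne_top) ENNReal.coe_ne_top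
      have hci : IntegrableOn (fun _ : ℂ => u z) (ball z s) := integrableOn_const hfin (by simp)
      rw [integral_sub hci hui, setIntegral_const, smul_eq_mul, Measure.real, hvol]
      field_simp
    show |u z - (Real.pi * s ^ 2)⁻¹ * ∫ w in ball z s, u w| ≤ ε
    rw [h1, abs_mul, abs_of_pos (by positivity), inv_mul_le_iff₀ (by positivity), ← Real.norm_eq_abs,
      mul_comm (Real.pi * s ^ 2) ε, ← hvol]
    apply norm_setIntegral_le_of_norm_le_const
    · rw [Complex.volume_ball]
      exact ENNReal.mul_lt_top (ENNReal.pow_lt_top ENNReal.ofReal_lt_top) ENNReal.coe_lt_top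
    · intro w hw
      have h2 := huc z (hzs (mem_closedBall_self hs0.le)) w (hzs (ball_subset_closedBall hw)) (by
        rw [mem_ball] at hw
        rw [dist_comm]
        have := min_le_right r (δ / 2)
        linarith)
      rw [dist_eq_norm] at h2
      exact h2.le
  exact key x (mem_ball_self hr0)

end Pool.Agent.Helper56.Harm
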