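import Mathlib
import Pool.Agent.Helper56.Harm.B
import Pool.Agent.Helper65.Base

/-! Removable singularities, Montel, zoom lemma. -/

open Complex Metric Set Filter Topology InnerProductSpace

namespace Pool.Agent.Helper56.Harm

open Pool.Agent.Helper65

/-- One sided bound by the maximum principle on a punctured disk. -/
lemma punctured_max {v : ℂ → ℝ} {z0 : ℂ} {r : ℝ} (hc : ContinuousOn v (closedBall z0 r))
    (hh : ∀ z ∈ ball z0 r, z ≠ z0 → HarmonicAt v z) {ε : ℝ}
    (hs : ∀ z ∈ sphere z0 r, v z ≤ ε) : ∀ z ∈ ball z0 r, z ≠ z0 → v z ≤ ε := by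
  intro z1 hz1 hz1'
  have hr : 0 < r := nonempty_ball.mp ⟨z1, hz1⟩
  obtain ⟨B, hB⟩ := (isCompact_closedBall z0 r).exists_bound_of_continuousOn hc
  have hd1 : 0 < dist z1 z0 := dist_pos.mpr hz1'
  -- the key estimate
  have key : ∀ a > 0, v z1 + a * (Real.log ‖z1 - z0‖ - Real.log r) ≤ ε := by
    intro a ha
    -- choose the inner radius
    obtain ⟨s, hs0, hs1, hs2⟩ : ∃ s : ℝ, 0 < s ∧ s < dist z1 z0 ∧
        B + a * (Real.log s - Real.log r) ≤ ε := by
      have ht : Tendsto Real.log (𝓝[>] 0) atBot := Real.tendsto_log_nhdsGT_zero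
      have h1 : ∀ᶠ s in 𝓝[>] (0 : ℝ), Real.log s ≤ Real.log r + (ε - B) / a :=
        ht.eventually (eventually_le_atBot _)
      have h2 : ∀ᶠ s in 𝓝[>] (0 : ℝ), s < dist z1 z0 :=
        nhdsWithin_le_nhds (eventually_lt_nhds hd1)
      have h3 : ∀ᶠ s in 𝓝[>] (0 : ℝ), 0 < s := eventually_mem_nhdsWithin
      obtain ⟨s, h1s, h2s, h3s⟩ := (h1.and (h2.and h3)).exists
      refine ⟨s, h3s, h2s, ?_⟩
      have h4 : a * (Real.log s - Real.log r) ≤ a * ((ε - B) / a) := by
        apply mul_le_mul_of_nonneg_left _ ha.le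
        linarith
      rw [mul_div_cancel₀ _ ha.ne'] at h4
      linarith
    set w : ℂ → ℝ := fun z => v z + a * (Real.log ‖z - z0‖ - Real.log r) with hw
    have hK : IsCompact (closedBall z0 r \ ball z0 s) := (isCompact_closedBall z0 r).diff isOpen_ball
    have hU : IsOpen (ball z0 r \ closedBall z0 s) := isOpen_ball.sdiff isClosed_closedBall
    have hUK : ball z0 r \ closedBall z0 s ⊆ closedBall z0 r \ ball z0 s :=
      fun z hz => ⟨ball_subset_closedBall hz.1, fun h => hz.2 (ball_subset_closedBall h)⟩
    have hne : ∀ z, z ∉ ball z0 s → z - z0 ≠ 0 := by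
      intro z hz h
      rw [sub_eq_zero] at h
      exact hz (h ▸ mem_ball_self hs0)
    have hwc : ContinuousOn w (closedBall z0 r \ ball z0 s) := by
      apply (hc.mono Set.sdiff_subset).add
      apply ContinuousOn.mul continuousOn_const
      apply ContinuousOn.sub _ continuousOn_const
      apply ContinuousOn.log (by fun_prop)
      intro z hz
      exact norm_ne_zero_iff.mpr (hne z hz.2)
    have hwh : ∀ z ∈ ball z0 r \ closedBall z0 s, HarmonicAt w z := by
      intro z hz
      have hz0 : z - z0 ≠ 0 := hne z (fun h => hz.2 (ball_subset_closedBall h))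
      have h1 : HarmonicAt v z := hh z hz.1 (sub_ne_zero.mp hz0)
      have h2 : HarmonicAt (fun z => Real.log ‖z - z0‖) z := by
        apply AnalyticAt.harmonicAt_log_norm
        · fun_prop
        · exact hz0
      have h3 : HarmonicAt (fun z => a • (Real.log ‖z - z0‖ - Real.log r)) z := by
        apply HarmonicAt.const_smul
        exact h2.sub (harmonicAt_const _)
      exact h1.add h3
    have hM : ∀ z ∈ (closedBall z0 r \ ball z0 s) \ (ball z0 r \ closedBall z0 s), w z ≤ ε := by
      intro z hz
      by_cases hzr : z ∈ ball z0 r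
      · have hzs : z ∈ closedBall z0 s := by
          by_contra hcon
          exact hz.2 ⟨hzr, hcon⟩
        have h1 : ‖z - z0‖ = s := by
          rw [← dist_eq_norm]
          apply le_antisymm hzs
          have := hz.1.2
          rw [mem_ball, not_lt] at this
          exact this
        have h2 : v z ≤ B := (le_abs_self _).trans (hB z hz.1.1)
        simp only [hw]
        rw [h1]
        linarith
      · have h1 : dist z z0 = r := by
          apply le_antisymm hz.1.1
          rw [mem_ball, not_lt] at hzr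
          exact hzr
        have h2 : ‖z - z0‖ = r := by rw [← dist_eq_norm, h1]
        simp only [hw]
        rw [h2, sub_self, mul_zero, add_zero]
        exact hs z h1
    have hmp := max_principle hK hU hUK hwc (fun z hz => by
      obtain ⟨δ, hδ, hsub⟩ := Metric.nhds_basis_closedBall.mem_iff.mp (hU.mem_nhds hz)
      refine ⟨0, δ, hδ, fun ρ hρ hρδ => ?_⟩
      have h1 : Real.circleAverage w z ρ = w z := by
        apply InnerProductSpace.HarmonicOnNhd.circleAverage_eq
        rw [abs_of_pos hρ]
        exact fun y hy => hwh y (hsub (closedBall_subset_closedBall hρδ.le hy))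
      rw [h1]
      linarith) hM z1 ⟨ball_subset_closedBall hz1, by
        rw [mem_ball, not_lt]
        exact hs1.le⟩
    exact hmp
  by_contra hcon
  rw [not_le] at hcon
  have hlog : Real.log ‖z1 - z0‖ - Real.log r ≤ 0 := by
    rw [sub_nonpos]
    apply Real.log_le_log
    · rw [← dist_eq_norm]; exact hd1
    · rw [← dist_eq_norm]; exact hz1.le
  set L := Real.log ‖z1 - z0‖ - Real.log r with hL
  have h1 := key ((v z1 - ε) / (2 * (1 - L))) (div_pos (by linarith) (by linarith))
  have h2 : (v z1 - ε) / (2 * (1 - L)) * L ≥ -((v z1 - ε) / 2) := by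
    rw [ge_iff_le, div_mul_eq_mul_div, neg_le, ← neg_div, div_le_div_iff₀ (by linarith) (by norm_num)]
    nlinarith
  linarith

/-- removable singularities -/
theorem harmonicAt_of_punctured {u : ℂ → ℝ} {z0 : ℂ} (hu : ContinuousAt u z0)
    (h : ∀ᶠ z in 𝓝[≠] z0, HarmonicAt u z) : HarmonicAt u z0 := by
  rw [eventually_nhdsWithin_iff, Metric.eventually_nhds_iff_ball] at h
  obtain ⟨R, hR, hh⟩ := h
  have hcont : ContinuousOn u (ball z0 R) := by
    intro z hz
    by_cases hzz : z = z0
    · rw [hzz]; exact hu.continuousWithinAt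
    · exact (hh z hz hzz).1.continuousAt.continuousWithinAt
  have hr : 0 < R / 2 := by positivity
  have hsub : closedBall z0 (R / 2) ⊆ ball z0 R := closedBall_subset_ball (by linarith)
  have key : HarmonicOnNhd u (ball z0 (R / 2)) := by
    apply harmonic_of_unif
    intro ε hε
    obtain ⟨ψ, hψ, hψs⟩ := approx_sphere hr (hcont.mono (sphere_subset_closedBall.trans hsub)) hε
    have hψh : ∀ z, HarmonicAt (fun z => (ψ z).re) z := fun z => (hψ.analyticAt z).harmonicAt_re
    refine ⟨fun z => (ψ z).re, fun z _ => hψh z, ?_⟩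
    have hc : ContinuousOn (fun z => u z - (ψ z).re) (closedBall z0 (R / 2)) :=
      (hcont.mono hsub).sub (Complex.continuous_re.comp hψ.continuous).continuousOn
    have m1 := punctured_max hc (fun z hz hz' =>
      (hh z (hsub (ball_subset_closedBall hz)) hz').sub (hψh z)) (ε := ε)
      (fun z hz => (abs_le.mp (hψs z hz)).2)
    have m2 := punctured_max (v := fun z => (ψ z).re - u z)
      ((Complex.continuous_re.comp hψ.continuous).continuousOn.sub (hcont.mono hsub))
      (fun z hz hz' => (hψh z).sub (hh z (hsub (ball_subset_closedBall hz)) hz')) (ε := ε)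
      (fun z hz => by linarith [(abs_le.mp (hψs z hz)).1])
    have m3 : ∀ z ∈ ball z0 (R / 2), z ≠ z0 → |u z - (ψ z).re| ≤ ε := by
      intro z hz hz'
      rw [abs_le]
      constructor
      · linarith [m2 z hz hz']
      · linarith [m1 z hz hz']
    intro z hz
    by_cases hzz : z = z0
    · rw [hzz]
      have h1 : ContinuousAt (fun z => |u z - (ψ z).re|) z0 :=
        (hu.sub (Complex.continuous_re.comp hψ.continuous).continuousAt).abs
      have h2 : Tendsto (fun z => |u z - (ψ z).re|) (𝓝[≠] z0) (𝓝 (|u z0 - (ψ z0).re|)) :=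
        h1.mono_left nhdsWithin_le_nhds
      apply le_of_tendsto h2
      have h3 : ∀ᶠ z in 𝓝 z0, z ∈ ball z0 (R / 2) := isOpen_ball.mem_nhds (mem_ball_self hr)
      filter_upwards [nhdsWithin_le_nhds h3, self_mem_nhdsWithin] with y hy hy'
      exact m3 y hy hy'
    · exact m3 z hz hzz
  exact key z0 (mem_ball_self hr)

end Pool.Agent.Helper56.Harm
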