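import Mathlib
import Pool.Agent.Helper56.Harm.C

/-! Montel, zoom lemma. -/

open Complex Metric Set Filter Topology InnerProductSpace

namespace Pool.Agent.Helper56.Harm

open Pool.Agent.Helper65

/-- Equicontinuous bounded sets of functions on a ball. -/
def MS (c : ℂ) (R M : ℝ) : Set (ball c R → C2) :=
  {F | (∀ x, ‖F x‖ ≤ M) ∧ ∀ x y : ball c R, dist (y : ℂ) x < R - dist (x : ℂ) c →
    dist (F y) (F x) ≤ 2 * M / (R - dist (x : ℂ) c) * dist (y : ℂ) x}

lemma MS_isCompact (c : ℂ) (R M : ℝ) : IsCompact (MS c R M) := by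
  have hK : IsCompact (Set.univ.pi (fun _ : ball c R => closedBall (0 : C2) M)) :=
    isCompact_univ_pi (fun _ => isCompact_closedBall _ _)
  apply hK.of_isClosed_subset
  · have e : MS c R M = (⋂ x, {F : ball c R → C2 | ‖F x‖ ≤ M}) ∩
      ⋂ x : ball c R, ⋂ y : ball c R, ⋂ (_ : dist (y : ℂ) x < R - dist (x : ℂ) c),
        {F : ball c R → C2 | dist (F y) (F x) ≤ 2 * M / (R - dist (x : ℂ) c) * dist (y : ℂ) x} := by
      ext F
      simp only [MS, mem_inter_iff, mem_iInter, Set.mem_ofPred_eq]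
    rw [e]
    apply IsClosed.inter
    · exact isClosed_iInter fun x => isClosed_le (continuous_norm.comp (continuous_apply x)) continuous_const
    · refine isClosed_iInter fun x => isClosed_iInter fun y => isClosed_iInter fun _ => ?_
      exact isClosed_le ((continuous_apply y).dist (continuous_apply x)) continuous_const
  · intro F hF x _
    rw [mem_closedBall, dist_zero_right]
    exact hF.1 x

lemma MS_continuous {c : ℂ} {R M : ℝ} {F : ball c R → C2} (hF : F ∈ MS c R M) : Continuous F := by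
  rw [continuous_iff_continuousAt]
  intro x
  have hx : 0 < R - dist (x : ℂ) c := sub_pos.mpr x.2
  rw [ContinuousAt, tendsto_iff_dist_tendsto_zero]
  have h1 : Tendsto (fun y : ball c R => 2 * M / (R - dist (x : ℂ) c) * dist (y : ℂ) x) (𝓝 x) (𝓝 0) := by
    have h2 : Continuous (fun y : ball c R => 2 * M / (R - dist (x : ℂ) c) * dist (y : ℂ) x) :=
      continuous_const.mul (continuous_subtype_val.dist continuous_const)
    have h3 := h2.tendsto x
    simpa using h3
  have h4 : ∀ᶠ y : ball c R in 𝓝 x, dist (y : ℂ) x < R - dist (x : ℂ) c := by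
    have : Tendsto (fun y : ball c R => dist (y : ℂ) x) (𝓝 x) (𝓝 0) := by
      have h2 : Continuous (fun y : ball c R => dist (y : ℂ) x) :=
        continuous_subtype_val.dist continuous_const
      have h3 := h2.tendsto x
      simpa using h3
    exact this.eventually (eventually_lt_nhds hx)
  apply squeeze_zero' (Eventually.of_forall fun y => dist_nonneg) _ h1
  filter_upwards [h4] with y hy
  exact hF.2 x y hy

lemma mem_MS {f : ℂ → C2} {c : ℂ} {R M : ℝ} (hd : DifferentiableOn ℂ f (ball c R))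
    (hb : ∀ z ∈ ball c R, ‖f z‖ ≤ M) : (fun x : ball c R => f x) ∈ MS c R M := by
  refine ⟨fun x => hb x x.2, fun x y hy => ?_⟩
  have hsub : ball (x : ℂ) (R - dist (x : ℂ) c) ⊆ ball c R := by
    apply ball_subset_ball'
    linarith
  apply Complex.dist_le_div_mul_dist_of_mapsTo_ball (hd.mono hsub) _ hy
  intro z hz
  rw [mem_closedBall, dist_eq_norm]
  calc ‖f z - f x‖ ≤ ‖f z‖ + ‖f x‖ := norm_sub_le _ _
    _ ≤ M + M := add_le_add (hb z (hsub hz)) (hb x x.2)
    _ = 2 * M := by ring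

/-- Montel's theorem -/
theorem montel (f : ℕ → ℂ → C2) {c : ℂ} {R M : ℝ}
    (hd : ∀ n, DifferentiableOn ℂ (f n) (ball c R)) (hb : ∀ n, ∀ z ∈ ball c R, ‖f n z‖ ≤ M) :
    ∃ φ : ℕ → ℕ, StrictMono φ ∧ ∃ g : ℂ → C2, DifferentiableOn ℂ g (ball c R) ∧
      TendstoLocallyUniformlyOn (fun n => f (φ n)) g atTop (ball c R) := by
  have hLC : LocallyCompactSpace (ball c R) := isOpen_ball.locallyCompactSpace
  set S : Set C(ball c R, C2) := {F | (F : ball c R → C2) ∈ MS c R M} with hS
  have hS1 : ContinuousMap.toFun '' S = MS c R M := by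
    ext F
    constructor
    · rintro ⟨G, hG, rfl⟩
      exact hG
    · intro hF
      exact ⟨⟨F, MS_continuous hF⟩, hF, rfl⟩
  have hS2 : Equicontinuous ((↑) : S → ball c R → C2) := by
    intro x
    rw [Metric.equicontinuousAt_iff]
    intro ε hε
    have hx : 0 < R - dist (x : ℂ) c := sub_pos.mpr x.2
    refine ⟨min (R - dist (x : ℂ) c) (ε / (2 * |M| / (R - dist (x : ℂ) c) + 1)), lt_min hx (by positivity),
      fun y hy F => ?_⟩
    have hy1 : dist (y : ℂ) x < R - dist (x : ℂ) c := lt_of_lt_of_le hy (min_le_left _ _)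
    have hy2 : dist (y : ℂ) x < ε / (2 * |M| / (R - dist (x : ℂ) c) + 1) :=
      lt_of_lt_of_le hy (min_le_right _ _)
    have h1 := F.2.2 x y hy1
    rw [dist_comm]
    refine lt_of_le_of_lt h1 ?_
    rw [lt_div_iff₀ (by positivity)] at hy2
    have h3 : 2 * M / (R - dist (x : ℂ) c) ≤ 2 * |M| / (R - dist (x : ℂ) c) := by
      apply div_le_div_of_nonneg_right _ hx.le
      linarith [le_abs_self M]
    have h4 : (0 : ℝ) ≤ dist (y : ℂ) x := dist_nonneg
    calc 2 * M / (R - dist (x : ℂ) c) * dist (y : ℂ) x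
        ≤ (2 * |M| / (R - dist (x : ℂ) c)) * dist (y : ℂ) x := mul_le_mul_of_nonneg_right h3 h4
      _ ≤ dist (y : ℂ) x * (2 * |M| / (R - dist (x : ℂ) c) + 1) := by nlinarith
      _ < ε := hy2
  have hcomp : IsCompact S := ArzelaAscoli.isCompact_of_equicontinuous S (hS1 ▸ MS_isCompact c R M) hS2
  have hfS : ∀ n, (⟨fun x : ball c R => f n x, MS_continuous (mem_MS (hd n) (hb n))⟩ : C(ball c R, C2)) ∈ S :=
    fun n => mem_MS (hd n) (hb n)
  have hfc : FirstCountableTopology C(ball c R, C2) := inferInstance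
  obtain ⟨g, hg, φ, hφ, hlim⟩ := hcomp.tendsto_subseq hfS
  rw [ContinuousMap.tendsto_iff_tendstoLocallyUniformly] at hlim
  classical
  set g' : ℂ → C2 := fun z => if h : z ∈ ball c R then g ⟨z, h⟩ else 0 with hg'
  have hlim' : TendstoLocallyUniformlyOn (fun n => f (φ n)) g' atTop (ball c R) := by
    rw [tendstoLocallyUniformlyOn_iff_tendstoLocallyUniformly_comp_coe]
    have e : g' ∘ ((↑) : ball c R → ℂ) = g := by
      funext x
      simp only [Function.comp_apply, hg']
      rw [dif_pos x.2]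
    rw [e]
    exact hlim
  exact ⟨φ, hφ, g', hlim'.differentiableOn (Eventually.of_forall fun n => hd _) isOpen_ball, hlim'⟩

/-- zoom lemma (doubling) -/
theorem exists_zoom {u : ℂ → ℝ} {z0 : ℂ} {R : ℝ} (hR : 0 < R) (hu : ContinuousOn u (ball z0 R))
    (hn : ¬ HarmonicAt u z0) : ∀ ε > 0, ∃ (z : ℂ) (ρ N : ℝ), dist z z0 < ε ∧ 0 < ρ ∧ ρ < ε ∧
      0 < N ∧ ball z (2 * ρ) ⊆ ball z0 R ∧
      (∀ v : ℂ → ℝ, HarmonicOnNhd v (ball z ρ) → ∃ z' ∈ ball z ρ, N ≤ |u z' - v z'|) ∧
      (∃ v : ℂ → ℝ, HarmonicOnNhd v (ball z (2 * ρ)) ∧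
        ∀ z' ∈ ball z (2 * ρ), |u z' - v z'| ≤ 40 * N) := by
  intro ε hε
  by_contra hcon
  push Not at hcon
  -- the step
  have step : ∀ (z : ℂ) (ρ N : ℝ), dist z z0 < ε → 0 < ρ → ρ < ε → 0 < N →
      ball z (2 * ρ) ⊆ ball z0 R →
      (∃ v : ℂ → ℝ, HarmonicOnNhd v (ball z (2 * ρ)) ∧
        ∀ z' ∈ ball z (2 * ρ), |u z' - v z'| ≤ 40 * N) →
      ∃ v : ℂ → ℝ, HarmonicOnNhd v (ball z ρ) ∧ ∀ z' ∈ ball z ρ, |u z' - v z'| ≤ N := by
    intro z ρ N h1 h2 h3 h4 h5 ⟨v, hv, hv2⟩
    by_contra hcon2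
    push Not at hcon2
    obtain ⟨z', hz', hz2⟩ := hcon z ρ N h1 h2 h3 h4 h5 (fun w hw => by
      obtain ⟨z', hz', hlt⟩ := hcon2 w hw
      exact ⟨z', hz', hlt.le⟩) v hv
    exact absurd (hv2 z' hz') (not_le.mpr hz2)
  -- radii
  set r0 : ℝ := min ε R / 4 with hr0
  have hm : 0 < min ε R := lt_min hε hR
  have hr0p : 0 < r0 := by positivity
  have hr0ε : r0 < ε := by
    have := min_le_left ε R
    rw [hr0]; linarith
  have hr0R : 3 * r0 < R := by
    have := min_le_right ε R
    rw [hr0]; linarith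
  obtain ⟨M, hM⟩ := (isCompact_closedBall z0 (3 * r0)).exists_bound_of_continuousOn
    (hu.mono (closedBall_subset_ball hr0R))
  set M' := |M| + 1 with hM'
  have hM'p : 0 < M' := by positivity
  have hball : ∀ z ∈ ball z0 r0, ball z (2 * r0) ⊆ closedBall z0 (3 * r0) := by
    intro z hz y hy
    rw [mem_ball] at hz hy
    rw [mem_closedBall]
    have := dist_triangle y z z0
    linarith
  have main : ∀ k : ℕ, ∀ z ∈ ball z0 r0, ∃ v : ℂ → ℝ, HarmonicOnNhd v (ball z (2 * r0 / 2 ^ k)) ∧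
      ∀ z' ∈ ball z (2 * r0 / 2 ^ k), |u z' - v z'| ≤ M' / 40 ^ k := by
    intro k
    induction k with
    | zero =>
      intro z hz
      refine ⟨fun _ => 0, fun y _ => harmonicAt_const _, fun z' hz' => ?_⟩
      rw [pow_zero, div_one] at hz'
      rw [pow_zero, div_one, sub_zero]
      have := hM z' (hball z hz hz')
      rw [Real.norm_eq_abs] at this
      linarith [le_abs_self M]
    | succ k ih =>
      intro z hz
      have e1 : 2 * (2 * r0 / 2 ^ (k + 1)) = 2 * r0 / 2 ^ k := by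
        rw [pow_succ]; field_simp
      have hle : 2 * r0 / 2 ^ (k + 1) ≤ r0 := by
        rw [pow_succ, div_le_iff₀ (by positivity)]
        have : (1 : ℝ) ≤ 2 ^ k := one_le_pow₀ (by norm_num)
        nlinarith
      apply step z (2 * r0 / 2 ^ (k + 1)) (M' / 40 ^ (k + 1))
      · rw [mem_ball] at hz; linarith
      · positivity
      · linarith
      · positivity
      · have h6 : ball z (2 * (2 * r0 / 2 ^ (k + 1))) ⊆ ball z (2 * r0) :=
          ball_subset_ball (by linarith)
        exact h6.trans ((hball z hz).trans (closedBall_subset_ball hr0R))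
      · obtain ⟨v, hv1, hv2⟩ := ih z hz
        refine ⟨v, by rw [e1]; exact hv1, fun z' hz' => ?_⟩
        rw [e1] at hz'
        have e2 : 40 * (M' / 40 ^ (k + 1)) = M' / 40 ^ k := by
          rw [pow_succ]; field_simp
        rw [e2]
        exact hv2 z' hz'
  -- conclusion
  apply hn
  have hcontr0 : ContinuousOn u (ball z0 r0) := hu.mono (ball_subset_ball (by linarith))
  refine harmonic_of_avg hcontr0 (C := 2 * M' / r0 ^ 3) (δ := 2 * r0) (by positivity) ?_ z0
    (mem_ball_self hr0p)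
  intro z ρ hρ hρδ hzρ
  have hz : z ∈ ball z0 r0 := hzρ (mem_closedBall_self hρ.le)
  -- choose the scale
  obtain ⟨k, hk1, hk2⟩ : ∃ k : ℕ, 2 * r0 / 2 ^ (k + 1) ≤ ρ ∧ ρ < 2 * r0 / 2 ^ k := by
    have hex : ∃ k : ℕ, 2 * r0 / 2 ^ (k + 1) ≤ ρ := by
      obtain ⟨k, hk⟩ := pow_unbounded_of_one_lt (2 * r0 / ρ) (by norm_num : (1 : ℝ) < 2)
      refine ⟨k, ?_⟩
      rw [div_le_iff₀ (by positivity)]
      rw [div_lt_iff₀ hρ] at hk
      have : (2 : ℝ) ^ k ≤ 2 ^ (k + 1) := pow_le_pow_right₀ (by norm_num) (Nat.le_succ k)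
      nlinarith
    classical
    refine ⟨Nat.find hex, Nat.find_spec hex, ?_⟩
    rcases Nat.eq_zero_or_pos (Nat.find hex) with h0 | h0
    · rw [h0, pow_zero, div_one]; exact hρδ
    · have hmin := Nat.find_min hex (m := Nat.find hex - 1) (by omega)
      rw [not_le, Nat.sub_add_cancel h0] at hmin
      exact hmin
  obtain ⟨v, hv1, hv2⟩ := main k z hz
  have hsph : sphere z ρ ⊆ ball z (2 * r0 / 2 ^ k) := sphere_subset_closedBall.trans (closedBall_subset_ball hk2)
  have hvc : ContinuousOn v (sphere z ρ) := fun y hy => (hv1 y (hsph hy)).1.continuousAt.continuousWithinAt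
  have hucs : ContinuousOn u (sphere z ρ) := hcontr0.mono (sphere_subset_closedBall.trans hzρ)
  have hvi : CircleIntegrable v z ρ := hvc.circleIntegrable hρ.le
  have hui : CircleIntegrable u z ρ := hucs.circleIntegrable hρ.le
  have h1 : Real.circleAverage v z ρ = v z := by
    apply InnerProductSpace.HarmonicOnNhd.circleAverage_eq
    rw [abs_of_pos hρ]
    exact fun y hy => hv1 y (closedBall_subset_ball hk2 hy)
  have h2 : Real.circleAverage (fun y => u y - v y) z ρ = Real.circleAverage u z ρ - v z := by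
    rw [Real.circleAverage_fun_sub hui hvi, h1]
  have h3 : |Real.circleAverage (fun y => u y - v y) z ρ| ≤ M' / 40 ^ k := by
    rw [abs_le]
    constructor
    · have hneg : Real.circleAverage (fun y => v y - u y) z ρ ≤ M' / 40 ^ k := by
        apply Real.circleAverage_mono_on_of_le_circle (hvi.sub hui)
        intro y hy
        rw [abs_of_pos hρ] at hy
        have := (abs_le.mp (hv2 y (hsph hy))).1
        show v y - u y ≤ _
        linarith
      rw [Real.circleAverage_fun_sub hvi hui, h1] at hneg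
      rw [h2]
      linarith
    · apply Real.circleAverage_mono_on_of_le_circle (hui.sub hvi)
      intro y hy
      rw [abs_of_pos hρ] at hy
      exact (abs_le.mp (hv2 y (hsph hy))).2
  have h4 : |u z - v z| ≤ M' / 40 ^ k := hv2 z (mem_ball_self (by positivity))
  have h5 : |Real.circleAverage u z ρ - u z| ≤ 2 * (M' / 40 ^ k) := by
    have e : Real.circleAverage u z ρ - u z =
        Real.circleAverage (fun y => u y - v y) z ρ - (u z - v z) := by
      rw [h2]; ring
    rw [e]
    calc |Real.circleAverage (fun y => u y - v y) z ρ - (u z - v z)|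
        ≤ |Real.circleAverage (fun y => u y - v y) z ρ| + |u z - v z| := abs_sub _ _
      _ ≤ 2 * (M' / 40 ^ k) := by linarith
  refine h5.trans ?_
  have h6 : (r0 / 2 ^ k) ^ 3 ≤ ρ ^ 3 := by
    apply pow_le_pow_left₀ (by positivity)
    have : 2 * r0 / 2 ^ (k + 1) = r0 / 2 ^ k := by rw [pow_succ]; field_simp
    rw [← this]
    exact hk1
  have h7 : 2 * M' / r0 ^ 3 * (r0 / 2 ^ k) ^ 3 = 2 * (M' / 8 ^ k) := by
    have : (8 : ℝ) ^ k = (2 ^ k) ^ 3 := by
      rw [← pow_mul, mul_comm k 3, pow_mul]; norm_num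
    rw [this]
    field_simp
  calc 2 * (M' / 40 ^ k) ≤ 2 * (M' / 8 ^ k) := by
        apply mul_le_mul_of_nonneg_left _ (by norm_num)
        apply div_le_div_of_nonneg_left hM'p.le (by positivity)
        exact pow_le_pow_left₀ (by norm_num) (by norm_num) k
    _ = 2 * M' / r0 ^ 3 * (r0 / 2 ^ k) ^ 3 := h7.symm
    _ ≤ 2 * M' / r0 ^ 3 * ρ ^ 3 := mul_le_mul_of_nonneg_left h6 (by positivity)

end Pool.Agent.Helper56.Harm
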